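import Mathlib
import Pool.Agent.R655.PosWords

/-!
# MP_bbb74b_al: partially positive words need not be potentially positive

Witness in rank `r ≥ 3`: `w = a * d * a * d⁻¹` with `d = b * c * b⁻¹ * c⁻¹`.
-/

namespace Pool.Agent.Results.MP_bbb74b_al.NotPotPos

open FreeGroup

/-- `w` is positive: it lies in the submonoid generated by the free generators. -/
def IsPositive {r : ℕ} (w : FreeGroup (Fin r)) : Prop :=
  w ∈ Submonoid.closure (Set.range (FreeGroup.of : Fin r → FreeGroup (Fin r)))

/-- `w` is potentially positive: some automorphism maps it to a positive element. -/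
def IsPotentiallyPositive {r : ℕ} (w : FreeGroup (Fin r)) : Prop :=
  ∃ φ : FreeGroup (Fin r) ≃* FreeGroup (Fin r), IsPositive (φ w)

/-- `w` is partially positive: some generator occurs in its reduced word, and the inverse of that
generator does not. -/
def IsPartiallyPositive {r : ℕ} (w : FreeGroup (Fin r)) : Prop :=
  ∃ a : Fin r, (a, true) ∈ w.toWord ∧ (a, false) ∉ w.toWord

/-- the commutator `b * c * b⁻¹ * c⁻¹` -/
def cm {r : ℕ} (b c : Fin r) : FreeGroup (Fin r) := of b * of c * (of b)⁻¹ * (of c)⁻¹

/-- the witness `a * d * a * d⁻¹` with `d = b * c * b⁻¹ * c⁻¹` -/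
def wit {r : ℕ} (a b c : Fin r) : FreeGroup (Fin r) :=
  of a * (cm b c * of a * (cm b c)⁻¹)

lemma wit_mk {r : ℕ} (a b c : Fin r) : wit a b c =
    FreeGroup.mk [(a, true), (b, true), (c, true), (b, false), (c, false), (a, true), (c, true),
      (b, true), (c, false), (b, false)] := by
  have h : ∀ (x y : Fin r × Bool) (L : List (Fin r × Bool)),
      mk (x :: y :: L) = mk [x] * mk (y :: L) := by
    intro x y L; rw [mul_mk]; rfl
  have hf : ∀ x : Fin r, mk [(x, false)] = (of x)⁻¹ := by
    intro x; rfl
  have ht : ∀ x : Fin r, mk [(x, true)] = of x := by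
    intro x; rfl
  unfold wit cm
  simp only [h, hf, ht]
  group

lemma wit_toWord {r : ℕ} {a b c : Fin r} (hab : a ≠ b) (hac : a ≠ c) (hbc : b ≠ c) :
    (wit a b c).toWord = [(a, true), (b, true), (c, true), (b, false), (c, false), (a, true),
      (c, true), (b, true), (c, false), (b, false)] := by
  rw [wit_mk, toWord_mk]
  apply IsReduced.reduce_eq
  simp [isReduced_cons_cons, hab, hac, hbc, hac.symm, hbc.symm]

/-- **For every rank `r ≥ 3` there is a partially positive word in the free group of rank `r` that
is not potentially positive.** -/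
theorem result : ∀ r : ℕ, 3 ≤ r →
    ∃ w : FreeGroup (Fin r), IsPartiallyPositive w ∧ ¬ IsPotentiallyPositive w := by
  intro r hr
  set a : Fin r := ⟨0, by omega⟩ with ha
  set b : Fin r := ⟨1, by omega⟩ with hb
  set c : Fin r := ⟨2, by omega⟩ with hc
  have hab : a ≠ b := by simp [ha, hb]
  have hac : a ≠ c := by simp [ha, hc]
  have hbc : b ≠ c := by simp [hb, hc]
  have hw := wit_toWord hab hac hbc
  refine ⟨wit a b c, ⟨a, ?_, ?_⟩, ?_⟩
  · rw [hw]; simp
  · rw [hw]; simp [hab, hac]
  · rintro ⟨φ, hφ⟩
    obtain ⟨L, hL, hLW⟩ := Pool.Agent.R655.exists_pos_of_mem hφ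
    have hne1 : wit a b c ≠ 1 := by
      intro h
      rw [← toWord_eq_nil_iff, hw] at h
      simp at h
    have hLne : L ≠ [] := by
      rintro rfl
      rw [← one_eq_mk] at hLW
      apply hne1
      apply φ.injective
      rw [← hLW, _root_.map_one]
    have hexp : φ (wit a b c) = φ (of a) * (φ (cm b c) * φ (of a) * (φ (cm b c))⁻¹) := by
      simp only [wit, _root_.map_mul, _root_.map_inv]
    have hs : Pool.Agent.R655.esum (φ (cm b c)) = 1 := by
      simp only [cm, _root_.map_mul, _root_.map_inv]
      rw [mul_right_comm (Pool.Agent.R655.esum (φ (of b)))]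
      simp
    have hB := Pool.Agent.R655.eq_one_of_mul_conj_pos hL hLne hs (by rw [← hexp, hLW])
    have hd : (cm b c : FreeGroup (Fin r)) = 1 := by
      apply φ.injective
      rw [hB, _root_.map_one]
    have : wit a b c = of a * of a := by
      unfold wit
      rw [hd]; simp
    have h2 : (wit a b c).toWord = [(a, true), (a, true)] := by
      rw [this]
      have : (of a : FreeGroup (Fin r)) * of a = mk [(a, true), (a, true)] := rfl
      rw [this, toWord_mk]
      apply IsReduced.reduce_eq
      simp [isReduced_cons_cons]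
    rw [hw] at h2
    simp at h2

end Pool.Agent.Results.MP_bbb74b_al.NotPotPos
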