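import Pool.Agent.R794.PP.Norm

/-!
# Partially positive words which are not potentially positive (problem of Shpilrain)

Let `a, b, c` be distinct free generators.  For all `n, k ≥ 5` the word `a ^ n * [b, c] ^ k` is
partially positive (`a` occurs, `a⁻¹` does not), but no automorphism of the free group maps it to a
positive word.  So the answer to the question is negative for every rank `r ≥ 3`.
-/

namespace Pool.Agent.Results.MP_bbb74b_al.NotPotentiallyPositive

open FreeGroup Pool.Agent.R794.PP
open scoped commutatorElement

/-- A word is positive if it lies in the submonoid generated by the free generators. -/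
def IsPositive {X : Type*} (g : FreeGroup X) : Prop :=
  g ∈ Submonoid.closure (Set.range (FreeGroup.of : X → FreeGroup X))

/-- A word is potentially positive if some automorphism of the free group maps it to a positive
word. -/
def IsPotentiallyPositive {X : Type*} (g : FreeGroup X) : Prop :=
  ∃ φ : FreeGroup X ≃* FreeGroup X, IsPositive (φ g)

/-- A word is partially positive if some generator occurs in its reduced form while the inverse of
this generator does not. -/
def IsPartiallyPositive {X : Type*} [DecidableEq X] (g : FreeGroup X) : Prop :=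
  ∃ a : X, (a, true) ∈ g.toWord ∧ (a, false) ∉ g.toWord

lemma allPos_of_isPositive {X : Type*} [DecidableEq X] {g : FreeGroup X} (h : IsPositive g) :
    AllPos g.toWord := by
  unfold IsPositive at h
  induction h using Submonoid.closure_induction with
  | mem x hx =>
    obtain ⟨y, rfl⟩ := hx
    intro l hl
    rw [toWord_of, List.mem_singleton] at hl
    rw [hl]
  | one => intro l hl; simp at hl
  | mul x y _ _ hx hy =>
    intro l hl
    have := (toWord_mul_sublist x y).subset hl
    rcases List.mem_append.1 this with h | h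
    · exact hx l h
    · exact hy l h

/-- The general obstruction: if `u` and `v` do not commute and `v` lies in the commutator subgroup
(or only has exponent sum zero), then no conjugate of `u ^ n * v ^ k` is positive. -/
theorem not_positive {Y : Type*} {n k : ℕ} (hn : 5 ≤ n) (hk : 5 ≤ k) (u v t : FreeGroup Y)
    (huv : ¬ Commute u v) (hv : v ∈ commutator (FreeGroup Y)) :
    ¬ IsPositive (t * (u ^ n * v ^ k) * t⁻¹) := by
  classical
  intro h
  have hchi : chi v = 1 := by
    have h1 : commutator (FreeGroup Y) ≤ (chi (X := Y)).ker := Abelianization.commutator_subset_ker _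
    exact h1 hv
  refine notPC hn hk _ (u⁻¹) v le_rfl (fun hc => huv ?_) hchi ⟨t, ?_⟩
  · have := hc.inv_left
    rwa [inv_inv] at this
  · rw [← inv_pow, inv_inv]
    exact allPos_of_isPositive h

/-- the word of a commutator of two generators -/
def comWord {X : Type*} (b c : X) : List (X × Bool) := [(b, true), (c, true), (b, false), (c, false)]

lemma mk_comWord {X : Type*} (b c : X) : (mk (comWord b c) : FreeGroup X) = ⁅of b, of c⁆ := by
  rw [commutatorElement_def]; rfl

lemma comWord_cyc {X : Type*} {b c : X} (hbc : b ≠ c) : IsCyclicallyReduced (comWord b c) := by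
  unfold comWord
  refine ⟨?_, ?_⟩
  · simp [FreeGroup.IsReduced, hbc, hbc.symm]
  · intro x hx y hy hxy
    simp at hx hy
    subst hx; subst hy
    exact absurd hxy.symm hbc

section Explicit

variable {X : Type*} [DecidableEq X]

lemma toWord_w {a b c : X} (hbc : b ≠ c) {n k : ℕ}
    (hk : k ≠ 0) : (of a ^ n * ⁅of b, of c⁆ ^ k : FreeGroup X).toWord
      = List.replicate n (a, true) ++ (List.replicate k (comWord b c)).flatten := by
  have h1 : (of a ^ n * ⁅of b, of c⁆ ^ k : FreeGroup X)
      = mk (List.replicate n (a, true) ++ (List.replicate k (comWord b c)).flatten) := by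
    rw [← mul_mk, mk_flatten_replicate, mk_comWord]
    congr 1
    rw [← mk_toWord (x := (of a ^ n : FreeGroup X)), toWord_of_pow]
  rw [h1, toWord_mk]
  apply IsReduced.reduce_eq
  rw [FreeGroup.IsReduced, List.isChain_append]
  refine ⟨List.isChain_replicate_of_rel _ (by simp), ((comWord_cyc hbc).flatten_replicate k).1, ?_⟩
  intro x hx y hy hxy
  rw [List.head?_flatten_replicate hk] at hy
  have hx' : x = (a, true) := by
    have := List.mem_of_getLast? hx
    exact List.eq_of_mem_replicate this
  have hy' : y = (b, true) := by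
    simp [comWord] at hy; exact hy.symm
  subst hx' hy'
  rfl

lemma partiallyPositive_w {a b c : X} (hab : a ≠ b) (hac : a ≠ c) (hbc : b ≠ c) {n k : ℕ}
    (hn : n ≠ 0) (hk : k ≠ 0) : IsPartiallyPositive (of a ^ n * ⁅of b, of c⁆ ^ k) := by
  refine ⟨a, ?_, ?_⟩
  · rw [toWord_w hbc hk]
    apply List.mem_append_left
    exact List.mem_replicate.2 ⟨hn, rfl⟩
  · rw [toWord_w hbc hk, List.mem_append, not_or]
    constructor
    · intro h
      have := List.eq_of_mem_replicate h
      simp at this
    · intro h
      rw [List.mem_flatten] at h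
      obtain ⟨l, hl, h⟩ := h
      rw [List.eq_of_mem_replicate hl] at h
      simp [comWord, hab, hac] at h

lemma not_commute_w {a b c : X} (hac : a ≠ c) (hbc : b ≠ c) :
    ¬ Commute (of a : FreeGroup X) ⁅of b, of c⁆ := by
  intro h
  have h1 : (mk ([(a, true)] ++ comWord b c) : FreeGroup X) = mk (comWord b c ++ [(a, true)]) := by
    rw [← mul_mk, ← mul_mk, mk_comWord]; exact h
  have h2 := reduce.sound h1
  have r1 : FreeGroup.IsReduced ([(a, true)] ++ comWord b c) := by
    simp [FreeGroup.IsReduced, comWord, hbc, hbc.symm]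
  have r2 : FreeGroup.IsReduced (comWord b c ++ [(a, true)]) := by
    simp [FreeGroup.IsReduced, comWord, hbc, hbc.symm, hac.symm]
  rw [r1.reduce_eq, r2.reduce_eq] at h2
  simp [comWord] at h2

end Explicit

theorem result :
    -- for every rank `r ≥ 3` there is a partially positive word which is not potentially positive
    (∀ r : ℕ, 3 ≤ r → ∃ w : FreeGroup (Fin r), IsPartiallyPositive w ∧ ¬ IsPotentiallyPositive w) ∧
    -- explicit words, in a free group on any set with three distinct elements `a, b, c`
    (∀ (X : Type) [DecidableEq X] (a b c : X), a ≠ b → a ≠ c → b ≠ c → ∀ n k : ℕ, 5 ≤ n → 5 ≤ k →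
      IsPartiallyPositive (of a ^ n * ⁅of b, of c⁆ ^ k : FreeGroup X) ∧
      ∀ (φ : FreeGroup X ≃* FreeGroup X) (t : FreeGroup X),
        ¬ IsPositive (t * φ (of a ^ n * ⁅of b, of c⁆ ^ k) * t⁻¹)) ∧
    -- the general obstruction
    (∀ (Y : Type) (n k : ℕ), 5 ≤ n → 5 ≤ k → ∀ u v t : FreeGroup Y, ¬ Commute u v →
      v ∈ commutator (FreeGroup Y) → ¬ IsPositive (t * (u ^ n * v ^ k) * t⁻¹)) := by
  have key : ∀ (X : Type) [DecidableEq X] (a b c : X), a ≠ b → a ≠ c → b ≠ c → ∀ n k : ℕ,
      5 ≤ n → 5 ≤ k → ∀ (φ : FreeGroup X ≃* FreeGroup X) (t : FreeGroup X),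
        ¬ IsPositive (t * φ (of a ^ n * ⁅of b, of c⁆ ^ k) * t⁻¹) := by
    intro X _ a b c hab hac hbc n k hn hk φ t
    rw [MulEquiv.map_mul, map_pow, map_pow]
    apply not_positive hn hk
    · intro h
      apply not_commute_w hac hbc
      have := h.map φ.symm.toMonoidHom
      simpa using this
    · rw [map_commutatorElement]
      exact Subgroup.commutator_mem_commutator (Subgroup.mem_top _) (Subgroup.mem_top _)
  refine ⟨?_, ?_, fun Y n k hn hk u v t huv hv => not_positive hn hk u v t huv hv⟩
  · intro r hr
    have hab : (⟨0, by omega⟩ : Fin r) ≠ ⟨1, by omega⟩ := by simp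
    have hac : (⟨0, by omega⟩ : Fin r) ≠ ⟨2, by omega⟩ := by simp
    have hbc : (⟨1, by omega⟩ : Fin r) ≠ ⟨2, by omega⟩ := by simp
    have h1 := partiallyPositive_w hab hac hbc (n := 5) (k := 5) (by norm_num) (by norm_num)
    refine ⟨_, h1, ?_⟩
    rintro ⟨φ, hφ⟩
    exact key (Fin r) _ _ _ hab hac hbc 5 5 le_rfl le_rfl φ 1
      (by rw [one_mul, inv_one, mul_one]; exact hφ)
  · intro X _ a b c hab hac hbc n k hn hk
    exact ⟨partiallyPositive_w hab hac hbc (by omega) (by omega),
      key X a b c hab hac hbc n k hn hk⟩

end Pool.Agent.Results.MP_bbb74b_al.NotPotentiallyPositive
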